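import Pool.Agent.Helper32.KD2.Basic
import Pool.Agent.Helper32.KD2.St.F1

/-! KD2-F2: the killed chain (II.4) -/

namespace KD.II.F2
open Finset MeasureTheory

variable {d N J : ℕ} [NeZero N] {c0 C0 : ℝ} {Θ : Type} [Fintype Θ] (S : JSys d N J c0 C0 Θ)
  {s ε lam Lam M0 : ℝ} {a : ℕ → ℕ → Θ → GG d N → ℝ}

open Classical in
/-- the killed law restricted to the window -/
noncomputable def res (s ε : ℝ) (a : ℕ → ℕ → Θ → GG d N → ℝ) (W : Set (GG d N)) (n : ℕ) :
    GG d N → ℝ := fun z => if z ∈ W then kil S s ε a W n z else 0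

theorem kil_zero (W : Set (GG d N)) : kil S s ε a W 0 = Pi.single 0 1 := rfl

theorem kil_succ (W : Set (GG d N)) (n : ℕ) :
    kil S s ε a W (n + 1) = S.step s ε (a n) (res S s ε a W n) := rfl

theorem single_nonneg (z : GG d N) : (0 : ℝ) ≤ (Pi.single (0 : GG d N) (1 : ℝ) : GG d N → ℝ) z := by
  by_cases h : z = 0
  · subst h; simp
  · rw [Pi.single_eq_of_ne h]

theorem kil_nonneg (hlam : 0 ≤ lam) (hε : 0 ≤ ε) (hr : ε * Lam * rate S s ≤ 1)
    (ha : ∀ n, S.Coef lam Lam M0 (a n)) (W : Set (GG d N)) (n : ℕ) (z : GG d N) :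
    0 ≤ kil S s ε a W n z := by
  induction n generalizing z with
  | zero => rw [kil_zero]; exact single_nonneg z
  | succ n ih =>
    rw [kil_succ]
    refine step_nonneg S hlam hε hr (ha n) _ (fun y => ?_) z
    unfold res
    split_ifs
    · exact ih y
    · exact le_rfl

theorem chain_nonneg (hlam : 0 ≤ lam) (hε : 0 ≤ ε) (hr : ε * Lam * rate S s ≤ 1)
    (ha : ∀ n, S.Coef lam Lam M0 (a n)) (n : ℕ) (z : GG d N) :
    0 ≤ S.chain s ε a n z := by
  induction n generalizing z with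
  | zero => exact single_nonneg z
  | succ n ih => exact step_nonneg S hlam hε hr (ha n) _ ih z

theorem kil_le_chain (hlam : 0 ≤ lam) (hε : 0 ≤ ε) (hr : ε * Lam * rate S s ≤ 1)
    (ha : ∀ n, S.Coef lam Lam M0 (a n)) (W : Set (GG d N)) (n : ℕ) (z : GG d N) :
    kil S s ε a W n z ≤ S.chain s ε a n z := by
  induction n generalizing z with
  | zero => exact le_rfl
  | succ n ih =>
    rw [kil_succ]
    refine step_mono S hlam hε hr (ha n) _ _ (fun y => ?_) z
    unfold res
    split_ifs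
    · exact ih y
    · exact chain_nonneg S hlam hε hr ha n y

theorem sum_res (W : Set (GG d N)) (n : ℕ) :
    ∑ z, res S s ε a W n z = inW W (kil S s ε a W n) (fun _ => 1) := by
  unfold res inW
  refine sum_congr rfl fun z _ => ?_
  split_ifs <;> simp

theorem sum_res_mul (W : Set (GG d N)) (n : ℕ) (g : GG d N → ℝ) :
    ∑ z, res S s ε a W n z * g z = inW W (kil S s ε a W n) g := by
  unfold res inW
  refine sum_congr rfl fun z _ => ?_
  split_ifs <;> simp

theorem inW_le (hlam : 0 ≤ lam) (hε : 0 ≤ ε) (hr : ε * Lam * rate S s ≤ 1)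
    (ha : ∀ n, S.Coef lam Lam M0 (a n)) (W : Set (GG d N)) (n : ℕ) (g : GG d N → ℝ)
    (hg : ∀ z, 0 ≤ g z) :
    inW W (kil S s ε a W n) g ≤ ∑ z, kil S s ε a W n z * g z := by
  unfold inW
  refine sum_le_sum fun z _ => ?_
  have := mul_nonneg (kil_nonneg S hlam hε hr ha W n z) (hg z)
  split_ifs
  · exact le_rfl
  · exact this

theorem inW_mono (hlam : 0 ≤ lam) (hε : 0 ≤ ε) (hr : ε * Lam * rate S s ≤ 1)
    (ha : ∀ n, S.Coef lam Lam M0 (a n)) (W : Set (GG d N)) (n : ℕ) (g g' : GG d N → ℝ)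
    (hg : ∀ z ∈ W, g z ≤ g' z) :
    inW W (kil S s ε a W n) g ≤ inW W (kil S s ε a W n) g' := by
  unfold inW
  refine sum_le_sum fun z _ => ?_
  split_ifs with h
  · exact mul_le_mul_of_nonneg_left (hg z h) (kil_nonneg S hlam hε hr ha W n z)
  · exact le_rfl

theorem inW_lin (W : Set (GG d N)) (μ g : GG d N → ℝ) (p q : ℝ) :
    inW W μ (fun z => p * g z + q) = p * inW W μ g + q * inW W μ (fun _ => 1) := by
  unfold inW
  rw [mul_sum, mul_sum, ← sum_add_distrib]
  refine sum_congr rfl fun z _ => ?_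
  split_ifs <;> ring

theorem kil_mass (hlam : 0 ≤ lam) (hε : 0 ≤ ε) (hr : ε * Lam * rate S s ≤ 1)
    (ha : ∀ n, S.Coef lam Lam M0 (a n)) (W : Set (GG d N)) (n : ℕ) :
    ∑ z, kil S s ε a W n z ≤ 1 := by
  induction n with
  | zero =>
    rw [kil_zero, Finset.sum_pi_single', if_pos (mem_univ _)]
  | succ n ih =>
    rw [kil_succ, step_sum S (ha n), sum_res]
    refine (inW_le S hlam hε hr ha W n _ (fun _ => zero_le_one)).trans ?_
    simpa using ih

theorem inW_one_le (hlam : 0 ≤ lam) (hε : 0 ≤ ε) (hr : ε * Lam * rate S s ≤ 1)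
    (ha : ∀ n, S.Coef lam Lam M0 (a n)) (W : Set (GG d N)) (n : ℕ) :
    inW W (kil S s ε a W n) (fun _ => 1) ≤ 1 := by
  refine (inW_le S hlam hε hr ha W n _ (fun _ => zero_le_one)).trans ?_
  simpa using kil_mass S hlam hε hr ha W n

theorem inW_zero (W : Set (GG d N)) (g : GG d N → ℝ) (hg : 0 ≤ g 0) :
    inW W (kil S s ε a W 0) g ≤ g 0 := by
  unfold inW
  rw [kil_zero, Finset.sum_eq_single (0 : GG d N)]
  · split_ifs
    · simp
    · exact hg
  · intro z _ hz
    rw [Pi.single_eq_of_ne hz]; simp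
  · intro h; exact absurd (mem_univ _) h

/-- one step of the chain against a function -/
theorem sum_succ (ha : ∀ n, S.Coef lam Lam M0 (a n)) (W : Set (GG d N)) (n : ℕ)
    (g : GG d N → ℝ) :
    ∑ z, kil S s ε a W (n + 1) z * g z = inW W (kil S s ε a W n) (gen S s ε (a n) g) := by
  rw [kil_succ, step_dual S (ha n), sum_res_mul]

/-- (a) of II.4 -/
theorem kil_super (hlam : 0 ≤ lam) (hε : 0 ≤ ε) (hr : ε * Lam * rate S s ≤ 1)
    (ha : ∀ n, S.Coef lam Lam M0 (a n)) (W : Set (GG d N)) (g : ℕ → GG d N → ℝ)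
    (hg : ∀ n z, 0 ≤ g n z) (k r : ℝ) (hk : 0 ≤ k) (hr0 : 0 ≤ r) (T : ℕ)
    (hgen : ∀ n < T, ∀ z ∈ W, gen S s ε (a n) (g (n + 1)) z ≤ (1 + k) * g n z + r)
    (n : ℕ) (hn : n ≤ T) :
    inW W (kil S s ε a W n) (g n) ≤ (1 + k) ^ n * (g 0 0 + n * r) := by
  induction n with
  | zero =>
    refine (inW_zero S W _ (hg 0 0)).trans ?_
    simp
  | succ n ih =>
    have ih' := ih (by omega)
    have h1 : inW W (kil S s ε a W (n + 1)) (g (n + 1)) ≤
        inW W (kil S s ε a W n) (fun z => (1 + k) * g n z + r) := by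
      refine (inW_le S hlam hε hr ha W (n + 1) _ (hg (n + 1))).trans ?_
      rw [sum_succ S ha]
      exact inW_mono S hlam hε hr ha W n _ _ (hgen n (by omega))
    rw [inW_lin] at h1
    have h2 := inW_one_le S hlam hε hr ha W n
    have h3 : (1 : ℝ) ≤ (1 + k) ^ (n + 1) := one_le_pow₀ (by linarith)
    have h4 : (1 + k) * inW W (kil S s ε a W n) (g n) ≤
        (1 + k) * ((1 + k) ^ n * (g 0 0 + n * r)) :=
      mul_le_mul_of_nonneg_left ih' (by linarith)
    have h5 : r * inW W (kil S s ε a W n) (fun _ => 1) ≤ (1 + k) ^ (n + 1) * r := by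
      calc r * inW W (kil S s ε a W n) (fun _ => 1) ≤ r * 1 :=
            mul_le_mul_of_nonneg_left h2 hr0
        _ = 1 * r := by ring
        _ ≤ (1 + k) ^ (n + 1) * r := mul_le_mul_of_nonneg_right h3 hr0
    calc inW W (kil S s ε a W (n + 1)) (g (n + 1))
        ≤ (1 + k) * ((1 + k) ^ n * (g 0 0 + n * r)) + (1 + k) ^ (n + 1) * r := by linarith
      _ = (1 + k) ^ (n + 1) * (g 0 0 + (n + 1 : ℕ) * r) := by push_cast; ring

/-- (b) of II.4 -/
theorem kil_exit (hlam : 0 ≤ lam) (hε : 0 ≤ ε) (hr : ε * Lam * rate S s ≤ 1)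
    (ha : ∀ n, S.Coef lam Lam M0 (a n)) (W : Set (GG d N)) (h0 : (0 : GG d N) ∈ W)
    (Ψ : GG d N → ℝ) (hΨ : ∀ z, 0 ≤ Ψ z) (hΨ0 : Ψ 0 = 0) (hΨ1 : ∀ z, z ∉ W → 1 ≤ Ψ z)
    (c : ℝ) (hc : 0 ≤ c)
    (hgen : ∀ n, ∀ z ∈ W, gen S s ε (a n) Ψ z ≤ Ψ z + c) (n : ℕ) :
    1 - n * c ≤ inW W (kil S s ε a W n) (fun _ => 1) := by
  have key : ∀ n : ℕ, inW W (kil S s ε a W n) Ψ + 1 -
      inW W (kil S s ε a W n) (fun _ => 1) ≤ n * c := by
    intro n
    induction n with
    | zero =>
      have h1 : inW W (kil S s ε a W 0) Ψ ≤ 0 := by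
        have := inW_zero S (s := s) (ε := ε) (a := a) W Ψ (hΨ 0)
        rwa [hΨ0] at this
      have h2 : inW W (kil S s ε a W 0) (fun _ => 1) = 1 := by
        unfold inW
        rw [kil_zero, Finset.sum_eq_single (0 : GG d N)]
        · rw [if_pos h0]; simp
        · intro z _ hz
          rw [Pi.single_eq_of_ne hz]; simp
        · intro h; exact absurd (mem_univ _) h
      rw [h2]; push_cast; linarith
    | succ n ih =>
      -- upper bound of the full sum
      have h1 : ∑ z, kil S s ε a W (n + 1) z * Ψ z ≤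
          inW W (kil S s ε a W n) Ψ + c * inW W (kil S s ε a W n) (fun _ => 1) := by
        rw [sum_succ S ha]
        have := inW_mono S hlam hε hr ha W n (gen S s ε (a n) Ψ) (fun z => 1 * Ψ z + c)
          (fun z hz => by
            have := hgen n z hz
            simpa using this)
        rw [inW_lin] at this
        linarith
      -- lower bound of the full sum
      have h2 : inW W (kil S s ε a W (n + 1)) Ψ + (∑ z, kil S s ε a W (n + 1) z -
          inW W (kil S s ε a W (n + 1)) (fun _ => 1)) ≤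
          ∑ z, kil S s ε a W (n + 1) z * Ψ z := by
        unfold inW
        rw [← sum_sub_distrib, ← sum_add_distrib]
        refine sum_le_sum fun z _ => ?_
        have hk0 := kil_nonneg S hlam hε hr ha W (n + 1) z
        split_ifs with hz
        · simp
        · have := mul_le_mul_of_nonneg_left (hΨ1 z hz) hk0
          linarith
      have h3 : ∑ z, kil S s ε a W (n + 1) z = inW W (kil S s ε a W n) (fun _ => 1) := by
        rw [kil_succ, step_sum S (ha n), sum_res]
      have h4 := inW_one_le S hlam hε hr ha W n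
      have h5 : c * inW W (kil S s ε a W n) (fun _ => 1) ≤ c * 1 :=
        mul_le_mul_of_nonneg_left h4 hc
      push_cast
      rw [h3] at h2
      nlinarith [h1, h2, h5, ih]
  have h1 := key n
  have h2 : 0 ≤ inW W (kil S s ε a W n) Ψ := by
    unfold inW
    refine sum_nonneg fun z _ => ?_
    split_ifs
    · exact mul_nonneg (kil_nonneg S hlam hε hr ha W n z) (hΨ z)
    · exact le_rfl
  linarith

end KD.II.F2
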